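import Pool.Agent.Helper45.PQ.StK

/-!
# Project PQ, module LTP: totally singular lines through a point
-/

set_option autoImplicit false

open Module Classical
open scoped LinearAlgebra.Projectivization

namespace Pool.Agent.Helper37.PQ

open Pool.Agent.Helper45.PQ
open Pool.Agent.Helper53.PB (tt line pts mem_pts rep_mk_mem card_pts geo geo_two
  eq_of_rep_mem_span left_mem_line right_mem_line line_le finrank_line mem_line line_eq)

universe u v

variable {F : Type u} {V : Type v} [Field F] [AddCommGroup V] [Module F V]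

private theorem line_inj [FiniteDimensional F V] {Q : QuadraticForm F V} {z z₂ y y' : ℙ F V}
    (hz : QuadraticMap.polar Q z.rep z₂.rep ≠ 0) (hy : QuadraticMap.polar Q z₂.rep y.rep = 0)
    (hy' : QuadraticMap.polar Q z₂.rep y'.rep = 0) (h : y'.rep ∈ line z y) : y' = y := by
  obtain ⟨a, b, hab⟩ := mem_line.1 h
  rw [← hab, QuadraticMap.polar_add_right, QuadraticMap.polar_smul_right,
    QuadraticMap.polar_smul_right, hy, smul_zero, add_zero, smul_eq_mul,
    QuadraticMap.polar_comm Q z₂.rep z.rep] at hy'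
  have ha : a = 0 := (mul_eq_zero.1 hy').resolve_right hz
  apply eq_of_rep_mem_span
  rw [← hab, ha, zero_smul, zero_add]
  exact Submodule.smul_mem _ _ (Submodule.mem_span_singleton_self _)

/-- the line through two perpendicular singular points is totally singular -/
private theorem line_sing {Q : QuadraticForm F V} {z y : ℙ F V} (hz : Q z.rep = 0)
    (hy : Q y.rep = 0) (hzy : QuadraticMap.polar Q z.rep y.rep = 0) : ∀ x ∈ line z y, Q x = 0 := by
  intro x hx
  obtain ⟨a, b, rfl⟩ := mem_line.1 hx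
  rw [QuadraticMap.map_add Q, QuadraticMap.map_smul, QuadraticMap.map_smul, hz, hy,
    QuadraticMap.polar_smul_left, QuadraticMap.polar_smul_right, hzy]
  simp

theorem hLTP (h1 : StCNT.{u, v}) : StLTP.{u, v} := by
  intro F _ _ V _ _ _ _ Q W z z₂ k hzW hz₂W hz hz₂ hne hk
  obtain ⟨W₂, hW₂⟩ : ∃ W₂, W₂ = W ⊓ prp Q z.rep ⊓ prp Q z₂.rep := ⟨_, rfl⟩
  rw [← hW₂]
  have hne' : QuadraticMap.polar Q z₂.rep z.rep ≠ 0 := by rwa [QuadraticMap.polar_comm]
  -- the points of `W₂`
  have hmem : ∀ y : ℙ F V, y ∈ sp Q W₂ ↔ y.rep ∈ W ∧ QuadraticMap.polar Q z.rep y.rep = 0 ∧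
      QuadraticMap.polar Q z₂.rep y.rep = 0 ∧ Q y.rep = 0 := by
    intro y
    rw [mem_sp, hW₂, Submodule.mem_inf, Submodule.mem_inf, mem_prp, mem_prp]
    tauto
  have hyz : ∀ y ∈ sp Q W₂, y ≠ z := by
    rintro y hy rfl
    exact hne' ((hmem y).1 hy).2.2.1
  have hinj : ∀ y ∈ sp Q W₂, ∀ y' ∈ sp Q W₂, line z y = line z y' → y = y' := by
    intro y hy y' hy' h
    refine (line_inj hne ((hmem y).1 hy).2.2.1 ((hmem y').1 hy').2.2.1 ?_).symm
    rw [h]
    exact right_mem_line _ _
  -- existence of the second point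
  have hex : ∀ l : Submodule F V, l ≤ W → z.rep ∈ l → finrank F l = 2 → (∀ x ∈ l, Q x = 0) →
      ∃ y ∈ sp Q W₂, line z y = l := by
    intro l hlW hzl hl hQ
    have h2 : ¬ l ≤ LinearMap.ker (QuadraticMap.polarBilin Q z₂.rep) := fun h => hne' (h hzl)
    have h3 := Pool.Agent.Helper53.PB.Polar.finrank_inf_ker l _ h2
    have h4 : (l ⊓ LinearMap.ker (QuadraticMap.polarBilin Q z₂.rep)) ≠ ⊥ := by
      intro h5
      rw [h5, finrank_bot, hl] at h3
      omega
    obtain ⟨v, hv, hv0⟩ := Submodule.exists_mem_ne_zero_of_ne_bot h4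
    have hy : (Projectivization.mk F v hv0).rep ∈
        l ⊓ LinearMap.ker (QuadraticMap.polarBilin Q z₂.rep) := (rep_mk_mem hv0).2 hv
    have hyS : Projectivization.mk F v hv0 ∈ sp Q W₂ :=
      (hmem _).2 ⟨hlW hy.1, polar_zero hQ hzl hy.1, hy.2, hQ _ hy.1⟩
    refine ⟨_, hyS, ?_⟩
    apply Submodule.eq_of_le_of_finrank_eq (line_le hzl hy.1)
    rw [hl, finrank_line (hyz _ hyS).symm]
  have hlts : ∀ y ∈ sp Q W₂, ∀ x ∈ line z y, Q x = 0 := fun y hy =>
    line_sing hz ((hmem y).1 hy).2.2.2 ((hmem y).1 hy).2.1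
  have part1 : (lins Q W z.rep).ncard = (sp Q W₂).card := by
    have e1 : lins Q W z.rep = (fun y => line z y) '' (sp Q W₂ : Set (ℙ F V)) := by
      ext l
      constructor
      · rintro ⟨h2, h3, h4, h5⟩
        obtain ⟨y, hy, hyl⟩ := hex l h2 h3 h4 h5
        exact ⟨y, hy, hyl⟩
      · rintro ⟨y, hy, rfl⟩
        exact ⟨line_le hzW ((hmem y).1 hy).1, left_mem_line _ _, finrank_line (hyz y hy).symm,
          hlts y hy⟩
    rw [e1, Set.ncard_image_of_injOn (fun y hy y' hy' h => hinj y hy y' hy' h),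
      Set.ncard_coe_finset]
  have part2 : ((sp Q W).filter (fun y => QuadraticMap.polar Q z.rep y.rep = 0)).card =
      1 + Nat.card F * (sp Q W₂).card := by
    have e1 : (sp Q W).filter (fun y => QuadraticMap.polar Q z.rep y.rep = 0) =
        insert z ((sp Q W₂).biUnion fun y => (pts (line z y)).erase z) := by
      ext x
      rw [Finset.mem_filter, Finset.mem_insert, Finset.mem_biUnion, mem_sp]
      constructor
      · rintro ⟨⟨h2, h3⟩, h4⟩
        by_cases hx : x = z
        · exact Or.inl hx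
        · right
          obtain ⟨y, hy, hyl⟩ := hex (line z x) (line_le hzW h2) (left_mem_line _ _)
            (finrank_line (Ne.symm hx)) (line_sing hz h3 h4)
          refine ⟨y, hy, ?_⟩
          rw [Finset.mem_erase, mem_pts, hyl]
          exact ⟨hx, right_mem_line _ _⟩
      · rintro (rfl | ⟨y, hy, hxy⟩)
        · refine ⟨⟨hzW, hz⟩, ?_⟩
          rw [polar_self_two, hz, mul_zero]
        · rw [Finset.mem_erase, mem_pts] at hxy
          exact ⟨⟨line_le hzW ((hmem y).1 hy).1 hxy.2, hlts y hy _ hxy.2⟩,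
            polar_zero (hlts y hy) (left_mem_line _ _) hxy.2⟩
    have e2 : z ∉ (sp Q W₂).biUnion fun y => (pts (line z y)).erase z := by
      rw [Finset.mem_biUnion]
      rintro ⟨y, _, hy⟩
      exact (Finset.mem_erase.1 hy).1 rfl
    rw [e1, Finset.card_insert_of_notMem e2, Finset.card_biUnion]
    · have e3 : ∀ y ∈ sp Q W₂, ((pts (line z y)).erase z).card = Nat.card F := by
        intro y hy
        rw [Finset.card_erase_of_mem (mem_pts.2 (left_mem_line _ _)), card_pts,
          finrank_line (hyz y hy).symm, geo_two]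
        rfl
      rw [Finset.sum_congr rfl e3, Finset.sum_const, smul_eq_mul]
      ring
    · intro y hy y' hy' hyy
      refine Finset.disjoint_left.2 ?_
      intro x hx hx'
      rw [Finset.mem_erase, mem_pts] at hx hx'
      apply hyy
      apply hinj y hy y' hy'
      rw [← line_eq (hyz y hy).symm hx.2 hx.1, ← line_eq (hyz y' hy').symm hx'.2 hx'.1]
  refine ⟨part1, part2, ?_⟩
  have e4 := h1 F V Q W z.rep k hzW hz ⟨z₂.rep, hz₂W, hne⟩ hk
  have e5 := Finset.card_filter_add_card_filter_not (s := sp Q W)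
    (fun y => QuadraticMap.polar Q z.rep y.rep = 0)
  rw [part2] at e5
  have e6 : ((sp Q W).filter (fun y => ¬ QuadraticMap.polar Q z.rep y.rep = 0)).card =
      Nat.card F ^ k := e4
  rw [e6] at e5
  omega

end Pool.Agent.Helper37.PQ
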