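import Pool.Agent.Helper45.PQ.StA

/-!
# Project PQ, module RKA: rank bounds for pairwise non-perpendicular points
-/

set_option autoImplicit false

open Module
open scoped LinearAlgebra.Projectivization

namespace Pool.Agent.Helper37.PQ

open Pool.Agent.Helper45.PQ

universe u v

/-- pairs `k ≤ l` -/
private abbrev PP (n : ℕ) : Type := {p : Fin n × Fin n // p.1 ≤ p.2}

private theorem card6 : Fintype.card (PP 6) = 21 := by decide +kernel
private theorem card9 : Fintype.card (PP 9) = 45 := by decide +kernel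

/-- the coefficients -/
private def cf (F : Type u) [Field F] {n : ℕ} (s : PP n) : F := if s.1.1 = s.1.2 then 1 else 2

private theorem cf_ne {F : Type u} [Field F] (h2 : (2 : F) ≠ 0) {n : ℕ} (s : PP n) :
    cf F s ≠ 0 := by
  unfold cf
  split_ifs
  · exact one_ne_zero
  · exact h2

/-- sum of a symmetric function over all pairs -/
private theorem sum_sym {F : Type u} [Field F] {n : ℕ} (T : Fin n → Fin n → F)
    (hT : ∀ i j, T i j = T j i) :
    ∑ i, ∑ j, T i j = ∑ s : PP n, cf F s * T s.1.1 s.1.2 := by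
  have h1 : ∑ s : PP n, cf F s * T s.1.1 s.1.2 =
      ∑ p : Fin n × Fin n, (if p.1 ≤ p.2 then (if p.1 = p.2 then 1 else 2) * T p.1 p.2 else 0) := by
    rw [← Finset.sum_filter]
    exact (Finset.sum_subtype (Finset.univ.filter fun p : Fin n × Fin n => p.1 ≤ p.2)
      (by simp) (fun p => (if p.1 = p.2 then 1 else 2) * T p.1 p.2)).symm
  have h2 : ∑ i, ∑ j, T i j = ∑ p : Fin n × Fin n, ((if p.1 ≤ p.2 then T p.1 p.2 else 0) +
      (if p.2 < p.1 then T p.1 p.2 else 0)) := by
    rw [← Fintype.sum_prod_type']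
    refine Finset.sum_congr rfl fun p _ => ?_
    by_cases h : p.1 ≤ p.2
    · rw [if_pos h, if_neg (not_lt.2 h), add_zero]
    · rw [if_neg h, if_pos (not_le.1 h), zero_add]
  have h3 : ∑ p : Fin n × Fin n, (if p.2 < p.1 then T p.1 p.2 else 0) =
      ∑ p : Fin n × Fin n, (if p.1 < p.2 then T p.1 p.2 else 0) := by
    rw [← Equiv.sum_comp (Equiv.prodComm (Fin n) (Fin n))]
    refine Finset.sum_congr rfl fun p _ => ?_
    simp only [Equiv.prodComm_apply, Prod.fst_swap, Prod.snd_swap]
    rw [hT]
  rw [h1, h2, Finset.sum_add_distrib, h3, ← Finset.sum_add_distrib]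
  refine Finset.sum_congr rfl fun p _ => ?_
  rcases lt_trichotomy p.1 p.2 with h | h | h
  · rw [if_pos h.le, if_pos h, if_pos h.le, if_neg h.ne]
    ring
  · rw [if_pos h.le, if_neg (by rw [h]; exact lt_irrefl _), if_pos h.le, if_pos h]
    ring
  · rw [if_neg (not_le.2 h), if_neg (not_lt.2 h.le), if_neg (not_le.2 h)]
    ring

/-- the rank bound for a general index type -/
private theorem rkg' (hR : StRKG.{u, v}) (F : Type u) [Field F] [Finite F] (h D : ℕ)
    (hq : Nat.card F = 3 ^ h) (h1 : 1 ≤ h) (α : Type v) [Fintype α] (κ : Type) [Fintype κ]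
    (hκ : Fintype.card κ = D) (g : α → α → F) (a b : α → κ → F) (h0 : ∀ i, g i i = 0)
    (hne : ∀ i l, i ≠ l → g i l ≠ 0) (hab : ∀ i l, g i l ^ 2 = ∑ k, a i k * b l k) :
    Fintype.card α ≤ D ^ h + 1 := by
  refine hR F h D hq h1 α g (fun i k => a i ((Fintype.equivFinOfCardEq hκ).symm k))
    (fun i k => b i ((Fintype.equivFinOfCardEq hκ).symm k)) h0 hne fun i l => ?_
  rw [hab, ← Equiv.sum_comp (Fintype.equivFinOfCardEq hκ).symm]

private theorem sq_form {F : Type u} [Field F] {n : ℕ} (x z : Fin n → F) :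
    (∑ k, x k * z k) ^ 2 = ∑ s : PP n, (x s.1.1 * x s.1.2) * (cf F s * (z s.1.1 * z s.1.2)) := by
  rw [sq, Finset.sum_mul_sum]
  rw [sum_sym (fun i j => x i * z i * (x j * z j)) (fun i j => mul_comm _ _)]
  refine Finset.sum_congr rfl fun s _ => ?_
  ring

theorem hRKA (h1 : StRKG.{u, v}) : StRKA.{u, v} := by
  intro F _ _ V _ _ _ Q h hq hh
  have hpr : Fact (Nat.Prime 3) := ⟨Nat.prime_three⟩
  have hcharF : CharP F 3 := by
    have hfin : Fintype F := Fintype.ofFinite F
    have hcard : Fintype.card F = 3 ^ h := by rw [← Nat.card_eq_fintype_card, hq]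
    exact charP_of_card_eq_prime_pow hcard
  have two_ne : (2 : F) ≠ 0 := by
    intro h2
    have h3 : ((3 : ℕ) : F) = 0 := CharP.cast_eq_zero F 3
    have h4 : (1 : F) = 0 := by
      calc (1 : F) = ((3 : ℕ) : F) - 2 := by norm_num
        _ = 0 := by rw [h3, h2, sub_zero]
    exact one_ne_zero h4
  have hself : ∀ x, Q x = 0 → QuadraticMap.polar Q x x = 0 := fun x hx => by
    rw [polar_self_two, hx, mul_zero]
  constructor
  · intro hV hQ I hI hne
    obtain ⟨b⟩ : Nonempty (Basis (Fin 9) F V) := ⟨finBasisOfFinrankEq F V hV⟩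
    have hexp : ∀ x y : V, QuadraticMap.polar Q x y =
        ∑ k, b.repr x k * QuadraticMap.polar Q (b k) y := by
      intro x y
      have e1 : QuadraticMap.polarBilin Q x y = QuadraticMap.polar Q x y := rfl
      have e2 : QuadraticMap.polarBilin Q x y =
          QuadraticMap.polarBilin Q (∑ k, b.repr x k • b k) y := by rw [b.sum_repr]
      rw [← e1, e2, map_sum, LinearMap.sum_apply]
      refine Finset.sum_congr rfl fun k _ => ?_
      rw [map_smul, LinearMap.smul_apply, smul_eq_mul]
      rfl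
    -- a nonzero entry
    obtain ⟨p, hp⟩ : ∃ p : PP 9, QuadraticMap.polar Q (b p.1.1) (b p.1.2) ≠ 0 := by
      by_contra hcon
      push Not at hcon
      obtain ⟨x, hx⟩ := hQ
      have hall : ∀ k l, QuadraticMap.polar Q (b k) (b l) = 0 := by
        intro k l
        rcases le_total k l with hkl | hkl
        · exact hcon ⟨(k, l), hkl⟩
        · rw [QuadraticMap.polar_comm]
          exact hcon ⟨(l, k), hkl⟩
      have h0 : QuadraticMap.polar Q x x = 0 := by
        rw [hexp x x]
        refine Finset.sum_eq_zero fun k _ => ?_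
        rw [QuadraticMap.polar_comm, hexp]
        rw [Finset.sum_eq_zero (fun l _ => by rw [hall, mul_zero]), mul_zero]
      rw [polar_self_two] at h0
      exact hx ((mul_eq_zero.1 h0).resolve_left two_ne)
    obtain ⟨G, hG⟩ : ∃ G : PP 9 → F, ∀ s, G s =
        cf F s * QuadraticMap.polar Q (b s.1.1) (b s.1.2) := ⟨_, fun _ => rfl⟩
    have hGp : G p ≠ 0 := by
      rw [hG]
      exact mul_ne_zero (cf_ne two_ne p) hp
    -- the relation for singular vectors
    have hrel : ∀ x, Q x = 0 → b.repr x p.1.1 * b.repr x p.1.2 * G p =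
        -∑ s : {s : PP 9 // s ≠ p}, b.repr x s.1.1.1 * b.repr x s.1.1.2 * G s.1 := by
      intro x hx
      have e1 : ∑ s : PP 9, b.repr x s.1.1 * b.repr x s.1.2 * G s = 0 := by
        rw [← hself x hx, hexp x x]
        have e2 : ∀ k, QuadraticMap.polar Q (b k) x =
            ∑ l, b.repr x l * QuadraticMap.polar Q (b l) (b k) := fun k => by
          rw [QuadraticMap.polar_comm, hexp]
        simp only [e2, Finset.mul_sum]
        rw [sum_sym (fun k l => b.repr x k * (b.repr x l * QuadraticMap.polar Q (b l) (b k)))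
          (fun k l => by rw [QuadraticMap.polar_comm Q (b l) (b k)]; ring)]
        refine Finset.sum_congr rfl fun s _ => ?_
        rw [hG, QuadraticMap.polar_comm Q (b s.1.2) (b s.1.1)]
        ring
      rw [Fintype.sum_eq_add_sum_subtype_ne _ p] at e1
      exact eq_neg_of_add_eq_zero_left e1
    have hcard : Fintype.card {s : PP 9 // s ≠ p} = 44 := by
      have e1 : Fintype.card {s : PP 9 // s ≠ p} = Fintype.card (PP 9) - 1 := by
        rw [Fintype.card_subtype_compl, Fintype.card_subtype_eq]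
      rw [e1, card9]
    have hfin := rkg' h1 F h 44 hq hh {P : ℙ F V // P ∈ I} {s : PP 9 // s ≠ p} hcard
      (fun P R => QuadraticMap.polar Q P.1.rep R.1.rep)
      (fun P s => b.repr P.1.rep s.1.1.1 * b.repr P.1.rep s.1.1.2)
      (fun R s => cf F s.1 * (QuadraticMap.polar Q (b s.1.1.1) R.1.rep *
        QuadraticMap.polar Q (b s.1.1.2) R.1.rep) - G s.1 / G p *
        (cf F p * (QuadraticMap.polar Q (b p.1.1) R.1.rep *
          QuadraticMap.polar Q (b p.1.2) R.1.rep)))
      (fun P => hself _ (hI P.1 P.2))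
      (fun P R hPR => hne P.1 P.2 R.1 R.2 (fun he => hPR (Subtype.ext he)))
      (fun P R => by
        rw [hexp P.1.rep R.1.rep, sq_form, Fintype.sum_eq_add_sum_subtype_ne _ p]
        have e1 := hrel P.1.rep (hI P.1 P.2)
        have e2 : b.repr P.1.rep p.1.1 * b.repr P.1.rep p.1.2 =
            -(∑ s : {s : PP 9 // s ≠ p}, b.repr P.1.rep s.1.1.1 * b.repr P.1.rep s.1.1.2 * G s.1) /
              G p := by
          rw [← e1]
          field_simp
        rw [e2]
        simp only [mul_sub, Finset.sum_sub_distrib]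
        rw [add_comm, sub_eq_add_neg]
        congr 1
        rw [neg_div, neg_mul, Finset.sum_div, Finset.sum_mul]
        congr 1
        refine Finset.sum_congr rfl fun s _ => ?_
        ring)
    rwa [Fintype.card_coe] at hfin
  · intro W hW I hI hne
    obtain ⟨b⟩ : Nonempty (Basis (Fin 6) F W) := ⟨finBasisOfFinrankEq F W hW⟩
    have hexp : ∀ (x : W) (y : V), QuadraticMap.polar Q x y =
        ∑ k, b.repr x k * QuadraticMap.polar Q (b k : V) y := by
      intro x y
      have e1 : QuadraticMap.polarBilin Q (x : V) y = QuadraticMap.polar Q x y := rfl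
      have e2 : (x : V) = ∑ k, b.repr x k • (b k : V) := by
        have := congrArg (Subtype.val) (b.sum_repr x)
        refine this.symm.trans ?_
        rw [Submodule.coe_sum]
        rfl
      have e3 : QuadraticMap.polarBilin Q (x : V) y =
          QuadraticMap.polarBilin Q (∑ k, b.repr x k • (b k : V)) y := by rw [← e2]
      rw [← e1, e3, map_sum, LinearMap.sum_apply]
      refine Finset.sum_congr rfl fun k _ => ?_
      rw [map_smul, LinearMap.smul_apply, smul_eq_mul]
      rfl
    have hfin := rkg' h1 F h 21 hq hh {P : ℙ F V // P ∈ I} (PP 6) card6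
      (fun P R => QuadraticMap.polar Q P.1.rep R.1.rep)
      (fun P s => b.repr ⟨P.1.rep, (hI P.1 P.2).1⟩ s.1.1 * b.repr ⟨P.1.rep, (hI P.1 P.2).1⟩ s.1.2)
      (fun R s => cf F s * (QuadraticMap.polar Q (b s.1.1 : V) R.1.rep *
        QuadraticMap.polar Q (b s.1.2 : V) R.1.rep))
      (fun P => hself _ (hI P.1 P.2).2)
      (fun P R hPR => hne P.1 P.2 R.1 R.2 (fun he => hPR (Subtype.ext he)))
      (fun P R => by
        rw [hexp ⟨P.1.rep, (hI P.1 P.2).1⟩ R.1.rep, sq_form])
    rwa [Fintype.card_coe] at hfin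

end Pool.Agent.Helper37.PQ
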